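import Pool.Agent.W2helper58.SS.Stm
import Pool.Agent.H620R2.GaugeR.R8

/-! Pieces `P_look2` and `P_mass2` of the project SS. -/

set_option autoImplicit false

namespace Pool.Agent.W2helper71.SS

open Pool.Agent.NPC Pool.Agent.H620R2.Gauge Pool.Agent.W2helper58.GF Pool.Agent.W2helper58.SS
open MeasureTheory

/-- a constant wire -/
def cwire (c : Bool) : Wire := ⟨Src.const, c⟩

theorem cwire_val (x g : List Bool) (c : Bool) : (cwire c).val x g = c := by
  simp [cwire, Wire.val, Src.val]

theorem p_look2 : P_look2 := by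
  intro key k
  refine ⟨⟨[Gate.ask (key.map cwire ++ (List.range k).map (fun i =>
    (⟨Src.input i, false⟩ : Wire)))], ⟨Src.gate 0, false⟩⟩, ?_, ?_⟩
  · simp only [Circuit.size, List.map_cons, List.map_nil, List.sum_cons, List.sum_nil, Gate.size,
      List.length_append, List.length_map, List.length_range]
    omega
  · intro B x
    have h1 : (key.map cwire ++ (List.range k).map (fun i =>
        (⟨Src.input i, false⟩ : Wire))).map (Wire.val x []) = key ++ pref k x := by
      have e2 : (Wire.val x []) ∘ cwire = id := by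
        funext c
        exact cwire_val x [] c
      simp only [List.map_append, List.map_map, e2, List.map_id]
      congr 1
      unfold pref
      apply List.map_congr_left
      intro i _
      simp [Wire.val, Src.val]
    simp only [Circuit.eval, Circuit.values, List.foldl_cons, List.foldl_nil, List.nil_append,
      Wire.val, Src.val, Gate.val]
    rw [← h1]
    simp

open Classical in
theorem p_mass2 : P_mass2 := by
  intro f Φ c hF O hO hnull
  have hc : (0 : ℝ) < 2 ^ c := Real.rpow_pos_of_pos (by norm_num) _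
  set δ : ℝ := 1 / 2 / 2 ^ c with hδ
  have hδpos : 0 < δ := by positivity
  obtain ⟨S, hS, hsum⟩ := hnull δ hδpos
  -- one sequence
  have hone : ∀ σ : List Bool, ranO {B | Extends (Φ B) σ} ≤
      ENNReal.ofReal (2 ^ c) * ENNReal.ofReal (2 ^ (f σ.length - σ.length)) := by
    intro σ
    obtain ⟨F, r, s, hFr, hFs, hrs, hB⟩ := hF σ.length
    let Φ' : Set (List Bool) → Oracle → Oracle := fun T B y => if y ∈ T then Φ B y else B y
    have h1 : {B | Extends (Φ B) σ} ⊆ ⋃ T ∈ F, {B | Extends (Φ' T B) σ} := by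
      intro B hBσ
      obtain ⟨T, hT, hTB⟩ := hB B
      simp only [Set.mem_iUnion]
      refine ⟨T, hT, fun i hi => ?_⟩
      have h2 := hBσ i hi
      show (if str i ∈ T then Φ B (str i) else B (str i)) = σ[i]
      split_ifs with h3
      · exact h2
      · rw [← hTB i hi h3]
        exact h2
    have hT : ∀ T ∈ F, ranO {B | Extends (Φ' T B) σ} ≤
        ENNReal.ofReal (2 ^ ((s : ℝ) - (σ.length : ℝ))) := by
      intro T hT
      refine (ranO_extends (Φ' T) T (fun B y hy => if_neg hy) σ).trans ?_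
      apply ENNReal.ofReal_le_ofReal
      apply Real.rpow_le_rpow_of_exponent_le (by norm_num)
      have h3 := hFs T hT
      have h4 : ((((Finset.range σ.length).filter (fun i => str i ∈ T)).card : ℕ) : ℝ) ≤ s := by
        exact_mod_cast h3
      linarith
    calc ranO {B | Extends (Φ B) σ} ≤ ranO (⋃ T ∈ F, {B | Extends (Φ' T B) σ}) :=
          measure_mono h1
      _ ≤ ∑ T ∈ F, ranO {B | Extends (Φ' T B) σ} := measure_biUnion_finset_le _ _
      _ ≤ ∑ T ∈ F, ENNReal.ofReal (2 ^ ((s : ℝ) - (σ.length : ℝ))) := Finset.sum_le_sum hT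
      _ = F.card * ENNReal.ofReal (2 ^ ((s : ℝ) - (σ.length : ℝ))) := by
          rw [Finset.sum_const, nsmul_eq_mul]
      _ ≤ ENNReal.ofReal (2 ^ (r : ℝ)) * ENNReal.ofReal (2 ^ ((s : ℝ) - (σ.length : ℝ))) := by
          gcongr
          rw [Real.rpow_natCast, ENNReal.ofReal_pow (by norm_num), ENNReal.ofReal_ofNat]
          exact_mod_cast hFr
      _ = ENNReal.ofReal (2 ^ ((r : ℝ) + ((s : ℝ) - (σ.length : ℝ)))) := by
          rw [← ENNReal.ofReal_mul (by positivity), ← Real.rpow_add (by norm_num)]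
      _ ≤ ENNReal.ofReal (2 ^ (c + (f σ.length - σ.length))) := by
          apply ENNReal.ofReal_le_ofReal
          apply Real.rpow_le_rpow_of_exponent_le (by norm_num)
          push_cast at hrs
          linarith
      _ = _ := by
          rw [← ENNReal.ofReal_mul hc.le, ← Real.rpow_add (by norm_num)]
  have h1 : (Set.univ : Set Oracle) ⊆ ⋃ σ : S, {B | Extends (Φ B) σ.1} := by
    intro B _
    obtain ⟨σ, hσ, h⟩ := hS (Φ B) (hO B)
    exact Set.mem_iUnion.mpr ⟨⟨σ, hσ⟩, h⟩
  have h2 : ranO Set.univ ≤ ENNReal.ofReal (2 ^ c * δ) := by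
    calc ranO Set.univ ≤ ranO (⋃ σ : S, {B | Extends (Φ B) σ.1}) := measure_mono h1
      _ ≤ ∑' σ : S, ranO {B | Extends (Φ B) σ.1} := measure_iUnion_le _
      _ ≤ ∑' σ : S, ENNReal.ofReal (2 ^ c) *
          ENNReal.ofReal (2 ^ (f σ.1.length - σ.1.length)) :=
        ENNReal.tsum_le_tsum (fun σ => hone σ.1)
      _ = ENNReal.ofReal (2 ^ c) * ∑' σ : S,
          ENNReal.ofReal (2 ^ (f σ.1.length - σ.1.length)) := ENNReal.tsum_mul_left
      _ ≤ ENNReal.ofReal (2 ^ c) * ENNReal.ofReal δ := by gcongr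
      _ = ENNReal.ofReal (2 ^ c * δ) := (ENNReal.ofReal_mul hc.le).symm
  have h3 : 2 ^ c * δ = 1 / 2 := by
    rw [hδ]
    field_simp
  rw [h3, measure_univ] at h2
  have h4 := ENNReal.toReal_mono ENNReal.ofReal_ne_top h2
  rw [ENNReal.toReal_ofReal (by positivity)] at h4
  norm_num at h4

end Pool.Agent.W2helper71.SS
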